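import Mathlib

set_option autoImplicit false

namespace Pool.Agent.H.MP_1d1d91_lc

variable {V : Type}

def Tri (r : V → V → Prop) (a b c : V) : Prop := ((r a b ↔ r b c) ↔ r c a)
def Par (r : V → V → Prop) (a a' d d' : V) : Prop := ((r a d ↔ r a' d) ↔ (r a d' ↔ r a' d'))
def Anti (S : Finset V) (r : V → V → Prop) : Prop := ∀ a ∈ S, ∀ b ∈ S, a ≠ b → (r a b ↔ ¬r b a)
def Mod (S : Finset V) (D : V → V → Prop) (X : Set V) : Prop :=
  ∀ a ∈ S, ∀ a' ∈ S, ∀ r ∈ S, a ∈ X → a' ∈ X → r ∉ X → (D a r ↔ D a' r)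
def Sp (S : Finset V) (r : V → V → Prop) (X : Set V) : Prop :=
  ∀ a ∈ S, ∀ a' ∈ S, ∀ d ∈ S, ∀ d' ∈ S, a ∈ X → a' ∈ X → d ∉ X → d' ∉ X → Par r a a' d d'
def Dom (S : Finset V) (D : V → V → Prop) (X : Set V) : Prop :=
  (∃ a ∈ S, a ∈ X) ∧ (∃ a ∈ S, a ∉ X) ∧ ∀ a ∈ S, ∀ r ∈ S, a ∈ X → r ∉ X → D a r

open Classical in
lemma minim (S : Finset V) (P : Set V → Prop) (h : ∃ X, P X) : ∃ M, P M ∧ ∀ X, P X → (∀ a ∈ S, a ∈ X → a ∈ M) →
    ∀ a ∈ S, a ∈ M → a ∈ X := by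
  obtain ⟨M, a, b⟩ := (InvImage.wf (fun X : Set V => (S.filter (· ∈ X)).card) Nat.lt_wfRel.wf).has_min {X | P X} h
  refine ⟨M, a, fun X hX k u hu hM => by_contra fun n => b X hX (Finset.card_lt_card ?_)⟩
  exact (Finset.ssubset_iff_of_subset fun a => by simpa using fun h h' => ⟨h, k a h h'⟩).2 ⟨u, by simp [*], by simp [*]⟩

lemma ext (S : Finset V) (D : V → V → Prop) (hD : Anti S D) (E : ℕ → V → V → Prop) (hE : ∀ t, Anti S (E t))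
    (tr : ∀ t, ∀ a ∈ S, ∀ b ∈ S, ∀ c ∈ S, a ≠ b → E t a b → E t b c → ¬E t c a)
    (cut : ∀ M, Mod S D M → ∃ t, ∀ m ∈ S, ∀ r ∈ S, m ∈ M → r ∉ M → E t m r)
    (c1 : ∀ t X, Mod S D X → Sp S (E t) X)
    (c2 : ∀ t A B, Disjoint A B → Mod S D A → Mod S D B → Mod S D (A ∪ B) → ∀ a ∈ S, ∀ b ∈ S, ∀ r ∈ S,
      a ∈ A → b ∈ B → r ∉ A ∪ B → (Tri D a b r ↔ Tri (E t) a b r)) :
    ∃ t, (∀ X, Mod S D X → Mod S (E t) X) ∧ ∀ A B, Disjoint A B → Mod S D A → Mod S D B → Mod S D (A ∪ B) →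
      ∀ a ∈ S, ∀ b ∈ S, a ∈ A → b ∈ B → (D a b ↔ E t a b) := by
  suffices h : ∃ t, (∀ X, Mod S D X → Mod S (E t) X) ∧ ∀ A, Dom S D A → Dom S (E t) A by
    obtain ⟨t, h1, h2⟩ := h
    refine ⟨t, h1, fun A B hd hA hB hAB a ha b hb a1 b1 => ?_⟩
    have nb : ∀ u, u ∈ A → u ∉ B := fun u h h' => Set.disjoint_left.1 hd h h'
    have ne : a ≠ b := fun e => nb a a1 (e ▸ b1)
    by_cases h : ∃ r ∈ S, r ∉ A ∪ B
    · obtain ⟨r, hr, h⟩ := h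
      have k1 := c2 t A B hd hA hB hAB a ha b hb r hr a1 b1 h
      have k2 := hAB a ha b hb r hr (.inl a1) (.inr b1) h
      have k3 := h1 _ hAB a ha b hb r hr (.inl a1) (.inr b1) h
      have k4 := hD r hr a ha fun e => h (e ▸ .inl a1)
      have k5 := hE t r hr a ha fun e => h (e ▸ .inl a1)
      unfold Tri at k1; grind
    · have k : ∀ u ∈ S, u ∉ A → u ∈ B := fun u hu n => by_contra fun n' => h ⟨u, hu, fun k => k.elim n n'⟩
      have k2 : ∀ u ∈ S, ∀ w ∈ S, u ∈ A → w ∈ B → (D u w ↔ D a b) := fun u hu w hw u1 w1 => by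
        have := hA u hu a ha w hw u1 a1 fun e => nb w e w1
        have := hB w hw b hb a ha w1 b1 (nb a a1)
        have := hD a ha w hw fun e => nb a a1 (e ▸ w1)
        have := hD a ha b hb ne
        grind
      by_cases hab : D a b
      · exact iff_of_true hab ((h2 A ⟨⟨a, ha, a1⟩, ⟨b, hb, fun e => nb b e b1⟩, fun u hu w hw u1 w1 =>
          (k2 u hu w hw u1 (k w hw w1)).2 hab⟩).2.2 a ha b hb a1 fun e => nb b e b1)
      · refine iff_of_false hab fun e => (hE t a ha b hb ne).1 e ((h2 B ⟨⟨b, hb, b1⟩, ⟨a, ha, nb a a1⟩,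
          fun u hu w hw u1 w1 => ?_⟩).2.2 b hb a ha b1 (nb a a1))
        have w2 : w ∈ A := by_contra fun n => w1 (k w hw n)
        exact (hD u hu w hw fun e => w1 (e ▸ u1)).2 (mt (k2 w hw u hu w2 u1).1 hab)
  have key : ∀ (M : Set V) t, (∀ m ∈ S, ∀ r ∈ S, m ∈ M → r ∉ M → E t m r) → (∃ a ∈ S, a ∈ M) → (∃ a ∈ S, a ∉ M) →
      (∀ X, Mod S D X → ∀ f ∈ S, ∀ l ∈ S, ∀ r ∈ S, f ∈ X → f ∈ M → l ∈ X → l ∉ M → r ∉ X → Mod S (E t) X) →
      ∀ X, Mod S D X → Mod S (E t) X := fun M t top ⟨m, hm, m1⟩ ⟨n, hn, n1⟩ h X hX => by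
    have : ∀ a ∈ S, ∀ a' ∈ S, ∀ r ∈ S, a ∈ X → a' ∈ X → r ∉ X → E t a r → E t a' r := fun a ha a' ha' r hr a1 a2 r1 e =>
      by_contra fun e' => by
        have e2 := (hE t r hr a' ha' fun e => r1 (e ▸ a2)).2 e'
        have b : ∀ s ∈ S, s ∉ X → E t a s ∧ E t s a' := fun s hs s1 => by
          have := c1 t X hX a ha a' ha' r hr s hs a1 a2 r1 s1
          have := tr t a ha r hr a' ha' (fun e => r1 (e ▸ a1)) e e2
          have := tr t a' ha' s hs a ha fun e => s1 (e ▸ a2)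
          have := hE t s hs a ha fun e => s1 (e ▸ a1)
          have := hE t s hs a' ha' fun e => s1 (e ▸ a2)
          have := hE t a ha a' ha' fun k => e' (k ▸ e)
          unfold Par at *; grind
        obtain ⟨f, hf, f1, f2⟩ : ∃ f ∈ S, f ∈ X ∧ f ∈ M := by
          by_cases k : m ∈ X
          · exact ⟨m, hm, k, m1⟩
          · exact ⟨a, ha, a1, by_contra fun k' => (hE t a ha m hm fun e => k (e ▸ a1)).1 (b m hm k).1
              (top m hm a ha m1 k')⟩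
        obtain ⟨l, hl, l1, l2⟩ : ∃ f ∈ S, f ∈ X ∧ f ∉ M := by
          by_cases k : n ∈ X
          · exact ⟨n, hn, k, n1⟩
          · exact ⟨a', ha', a2, fun k' => (hE t n hn a' ha' fun e => k (e ▸ a2)).1 (b n hn k).2
              (top a' ha' n hn k' n1)⟩
        exact e' ((h X hX f hf l hl r hr f1 f2 l1 l2 r1 a ha a' ha' r hr a1 a2 r1).1 e)
    exact fun a ha a' ha' r hr a1 a2 r1 => ⟨this a ha a' ha' r hr a1 a2 r1, this a' ha' a ha r hr a2 a1 r1⟩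
  have dm : ∀ D X, Dom S D X → Mod S D X := fun D X h a ha a' ha' r hr a1 a2 r1 =>
    iff_of_true (h.2.2 a ha r hr a1 r1) (h.2.2 a' ha' r hr a2 r1)
  by_cases h : ∃ M, Dom S D M
  · obtain ⟨M, hM, mn⟩ := minim S _ h
    obtain ⟨t, top⟩ := cut M (dm _ _ hM)
    have hb : ∀ A, Dom S D A → Dom S (E t) A := fun A hA => by
      have sub : ∀ m ∈ S, m ∈ M → m ∈ A := fun m hm m1 => by_contra fun n => n (mn A hA (fun a ha a1 =>
        by_contra fun k => (hD a ha m hm fun e => n (e ▸ a1)).1 (hA.2.2 a ha m hm a1 n) (hM.2.2 m hm a ha m1 k))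
        m hm m1)
      refine ⟨hA.1, hA.2.1, fun a ha b hb a1 b1 => ?_⟩
      have b2 : b ∉ M := fun k => b1 (sub b hb k)
      by_cases a2 : a ∈ M
      · exact top a ha b hb a2 b2
      obtain ⟨m, hm, m1⟩ := hM.1
      have k := c2 t M (A \ M) Set.disjoint_sdiff_right (dm _ _ hM) (fun u hu w hw r hr u1 w1 r1 => by
        by_cases k : r ∈ M
        · exact iff_of_false ((hD r hr u hu fun e => r1 (e ▸ u1)).1 (hM.2.2 r hr u hu k u1.2))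
            ((hD r hr w hw fun e => r1 (e ▸ w1)).1 (hM.2.2 r hr w hw k w1.2))
        · exact dm _ _ hA u hu w hw r hr u1.1 w1.1 fun e => r1 ⟨e, k⟩) (fun u hu w hw r hr u1 w1 r1 =>
          dm _ _ hA u hu w hw r hr (u1.elim (sub u hu) And.left) (w1.elim (sub w hw) And.left) fun e =>
            r1 (by_contra fun n => n (.inr ⟨e, fun k => n (.inl k)⟩))) m hm a ha b hb m1 ⟨a1, a2⟩
        fun k => k.elim b2 fun k => b1 k.1
      have := hM.2.2 m hm a ha m1 a2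
      have := top m hm a ha m1 a2
      have := (hD m hm b hb fun e => b2 (e ▸ m1)).1 (hM.2.2 m hm b hb m1 b2)
      have := (hE t m hm b hb fun e => b2 (e ▸ m1)).1 (top m hm b hb m1 b2)
      have := hA.2.2 a ha b hb a1 b1
      unfold Tri at k; grind
    refine ⟨t, key M t top hM.1 hM.2.1 fun X hX f hf l hl r hr f1 f2 l1 l2 r1 => dm _ _ (hb X ⟨⟨f, hf, f1⟩,
      ⟨r, hr, r1⟩, fun u hu s hs u1 s1 => (hX f hf u hu s hs f1 u1 s1).1 (hM.2.2 f hf s hs f2 fun s2 => ?_)⟩), hb⟩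
    refine (mn (M \ X) ⟨⟨s, hs, s2, s1⟩, ⟨f, hf, fun k => k.2 f1⟩, fun s hs w hw k w1 => ?_⟩ (fun _ _ k => k.1)
      f hf f2).2 f1
    by_cases w2 : w ∈ M
    · have w3 : w ∈ X := by_contra fun n => w1 ⟨w2, n⟩
      exact (hD s hs w hw fun e => k.2 (e ▸ w3)).2 (mt (hX w hw l hl s hs w3 l1 k.2).1
        ((hD s hs l hl fun e => k.2 (e ▸ l1)).1 (hM.2.2 s hs l hl k.1 l2)))
    · exact hM.2.2 s hs w hw k.1 w2
  by_cases h2 : ∃ a ∈ S, ∃ b ∈ S, a ≠ b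
  swap
  · exact ⟨0, fun X _ a ha a' _ r hr a1 _ r1 => absurd ⟨a, ha, r, hr, fun e => r1 (e ▸ a1)⟩ h2,
      fun A hA => absurd ⟨A, hA⟩ h⟩
  obtain ⟨a, ha, b, hb, ab⟩ := h2
  obtain ⟨N, ⟨hM, h3, h4⟩, mn⟩ := minim S (fun N => Mod S D Nᶜ ∧ (∃ a ∈ S, a ∈ Nᶜ) ∧ ∃ a ∈ S, a ∉ Nᶜ)
    ⟨{a}ᶜ, by rw [compl_compl]; rintro _ _ _ _ _ _ rfl rfl _; rfl, ⟨a, ha, by simp⟩, b, hb, by simp [ab.symm]⟩
  obtain ⟨t, top⟩ := cut _ hM
  refine ⟨t, key _ t top h3 h4 fun X hX f hf l hl r hr f1 f2 l1 l2 r1 => absurd ?_ h, fun A hA => absurd ⟨A, hA⟩ h⟩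
  have k : ∀ s ∈ S, s ∉ X → s ∈ Nᶜ := fun s hs s1 s2 => (mn (N \ X) ⟨fun u hu w hw r hr u1 w1 r1 => by
    have r2 : r ∈ N \ X := not_not.1 r1
    have : ∀ u ∈ S, u ∈ (N \ X)ᶜ → (D u r ↔ D f r) := fun u hu u1 => by
      by_cases k : u ∈ X
      · exact hX u hu f hf r hr k f1 r2.2
      · exact hM u hu f hf r hr (fun e => u1 ⟨e, k⟩) f2 fun e => e r2.1
    rw [this u hu u1, this w hw w1], ⟨f, hf, fun k => k.2 f1⟩, s, hs, fun k => k ⟨s2, s1⟩⟩ (fun _ _ k => k.1)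
    l hl (not_not.1 l2)).2 l1
  have k2 : ∀ u ∈ S, ∀ s ∈ S, u ∈ X → s ∉ X → (D u s ↔ ¬D r l) := fun u hu s hs u1 s1 => by
    rw [hX u hu l hl s hs u1 l1 s1, hD l hl s hs fun e => s1 (e ▸ l1), hM s hs r hr l hl (k s hs s1) (k r hr r1) l2]
  by_cases e : D r l
  · exact ⟨Xᶜ, ⟨r, hr, r1⟩, ⟨f, hf, fun k => k f1⟩, fun s hs u hu s1 u1 => (hD s hs u hu fun e => u1 (e ▸ s1)).2
      fun k => (k2 u hu s hs (not_not.1 u1) s1).1 k e⟩
  · exact ⟨X, ⟨f, hf, f1⟩, ⟨r, hr, r1⟩, fun u hu s hs u1 s1 => (k2 u hu s hs u1 s1).2 e⟩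

end Pool.Agent.H.MP_1d1d91_lc
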