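import Pool.Agent.H.MP_1d1d91_lc.A
import Pool.Agent.Lib.helper9.Chordal

set_option autoImplicit false

namespace Pool.Agent.H.MP_1d1d91_lc

variable {V : Type} [DecidableEq V]

def Compat (K : Finset V) (x y : V → V → Prop) : Prop := (∀ X, Sp K x X → Sp K y X) ∧
  ∀ A B, Disjoint A B → Sp K x A → Sp K x B → Sp K x (A ∪ B) → ∀ a ∈ K, ∀ b ∈ K, ∀ r ∈ K,
    a ∈ A → b ∈ B → r ∉ A ∪ B → (Tri x a b r ↔ Tri y a b r)

def lt (p : V → ℕ) (a b : V) : Prop := p a < p b
def ins (p : V → ℕ) (v : V) (t : ℕ) (u : V) : ℕ := if u = v then 2 * t else 2 * p u + 1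

omit [DecidableEq V] in
lemma sp_compl {K : Finset V} {r : V → V → Prop} {X : Set V} (h : Anti K r) (k : Sp K r X) : Sp K r Xᶜ :=
  fun a ha a' ha' d hd d' hd' a1 a2 d1 d2 => by
    have d1 := not_not.1 d1
    have d2 := not_not.1 d2
    have := k d hd d' hd' a ha a' ha' d1 d2 a1 a2
    have := h a ha d hd fun e => a1 (e ▸ d1)
    have := h a ha d' hd' fun e => a1 (e ▸ d2)
    have := h a' ha' d hd fun e => a2 (e ▸ d1)
    have := h a' ha' d' hd' fun e => a2 (e ▸ d2)
    unfold Par at *; grind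

omit [DecidableEq V] in
lemma anti_lt {K : Finset V} {p : V → ℕ} (h : ∀ a ∈ K, ∀ b ∈ K, p a = p b → a = b) : Anti K (lt p) :=
  fun a ha b hb n => by have := mt (h a ha b hb) n; unfold lt; omega

lemma ins_inj {K : Finset V} {p : V → ℕ} (h : ∀ a ∈ K, ∀ b ∈ K, p a = p b → a = b) (v : V) (t : ℕ) :
    ∀ a ∈ insert v K, ∀ b ∈ insert v K, ins p v t a = ins p v t b → a = b := by
  intro a ha b hb; unfold ins; grind

lemma lt_ins {p : V → ℕ} {v a b : V} {t : ℕ} (ha : a ≠ v) (hb : b ≠ v) : lt (ins p v t) a b ↔ lt p a b := by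
  simp [lt, ins, ha, hb]

section
variable {S : Finset V} {v : V} (hv : v ∉ S) {r : V → V → Prop} (h : Anti (insert v S) r)
include hv h

lemma av {a : V} (ha : a ∈ S) : r v a ↔ ¬r a v :=
  h v (Finset.mem_insert_self _ _) a (Finset.mem_insert_of_mem ha) fun e => hv (e ▸ ha)

lemma anti_tri : Anti S (Tri r v) := fun a ha b hb n => by
  have := av hv h ha
  have := av hv h hb
  have := h a (Finset.mem_insert_of_mem ha) b (Finset.mem_insert_of_mem hb) n
  unfold Tri; grind

lemma tri_tri {a b c : V} (ha : a ∈ S) (hb : b ∈ S) (hc : c ∈ S) : Tri (Tri r v) a b c ↔ ¬Tri r a b c := by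
  have := av hv h ha
  have := av hv h hb
  have := av hv h hc
  unfold Tri; grind

lemma sp_iff {X : Set V} (hX : v ∉ X) : Sp (insert v S) r X ↔ Mod S (Tri r v) X := by
  refine ⟨fun k a ha a' ha' s hs a1 a2 s1 => ?_, fun k a ha a' ha' d hd d' hd' a1 a2 d1 d2 => ?_⟩
  · have := k a (by simp [ha]) a' (by simp [ha']) s (by simp [hs]) v (by simp) a1 a2 s1 hX
    have := av hv h ha
    have := av hv h ha'
    unfold Par Tri at *; grind
  · replace ha := Finset.mem_of_mem_insert_of_ne ha fun e => hX (e ▸ a1)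
    replace ha' := Finset.mem_of_mem_insert_of_ne ha' fun e => hX (e ▸ a2)
    have : ∀ d ∈ insert v S, d ∉ X → Par r a a' d v := fun d hd d1 => by
      rcases Finset.mem_insert.1 hd with rfl | hd
      · exact Iff.rfl
      have := k a ha a' ha' d hd a1 a2 d1
      have := av hv h ha
      have := av hv h ha'
      unfold Par Tri at *; grind
    have k1 := this d hd d1
    have k2 := this d' hd' d2
    unfold Par at *; grind

end

omit [DecidableEq V] in
lemma par_tri {r : V → V → Prop} {v a a' d d' : V} : Par (Tri r v) a a' d d' ↔ Par r a a' d d' := by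
  unfold Par Tri; grind

omit [DecidableEq V] in
lemma tri_rot {r : V → V → Prop} {a b c : V} : Tri r a b c ↔ Tri r b c a := by
  unfold Tri; grind

lemma ext2 {S : Finset V} {v : V} (hv : v ∉ S) {x : V → V → Prop} (hx : Anti (insert v S) x) {p : V → ℕ}
    (hp : ∀ a ∈ S, ∀ b ∈ S, p a = p b → a = b) (hc : Compat S x (lt p)) :
    ∃ t, Compat (insert v S) x (lt (ins p v t)) := by
  classical
  have hy := fun t => anti_lt (ins_inj hp v t)
  have nv : ∀ a ∈ S, a ≠ v := fun a ha e => hv (e ▸ ha)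
  have m1 : ∀ X, Mod S (Tri x v) X → Sp S x X := fun X k a ha a' ha' d hd d' hd' a1 a2 d1 d2 =>
    (par_tri (v := v)).1 (iff_of_true (k a ha a' ha' d hd a1 a2 d1) (k a ha a' ha' d' hd' a1 a2 d2))
  have ev : ∀ t, ∀ a ∈ S, ∀ b ∈ S, Tri (lt (ins p v t)) v a b ↔ ((t ≤ p a ↔ p a < p b) ↔ p b < t) :=
    fun t a ha b hb => by simp only [Tri, lt, ins, if_pos, if_neg (nv a ha), if_neg (nv b hb)]; omega
  obtain ⟨t, f1, f2⟩ := ext S (Tri x v) (anti_tri hv hx) (fun t => Tri (lt (ins p v t)) v)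
    (fun t => anti_tri hv (hy t)) (fun t a ha b hb c hc n => by
      have := mt (hp a ha b hb) n
      rw [ev t a ha b hb, ev t b hb c hc, ev t c hc a ha]; omega)
    (fun M hM => by
      have k := hc.1 M (m1 M hM)
      by_cases h : (∃ m ∈ S, m ∈ M) ∧ ∃ m ∈ S, m ∉ M
      swap
      · exact ⟨0, fun m hm r hr a b => absurd ⟨⟨m, hm, a⟩, r, hr, b⟩ h⟩
      obtain ⟨⟨m, hm, m1⟩, r, hr, r1⟩ := h
      obtain ⟨u, hu, u1⟩ := S.exists_min_image p ⟨m, hm⟩
      by_cases h : u ∈ M
      · obtain ⟨w, hw, w1⟩ := (S.filter (· ∉ M)).exists_min_image p ⟨r, by simp [*]⟩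
        obtain ⟨w2, w3⟩ := Finset.mem_filter.1 hw
        refine ⟨p w, fun m hm r hr a b => (ev _ m hm r hr).2 ?_⟩
        have := k m hm u hu r hr w w2 a h b w3
        have := w1 r (by simp [*])
        have := u1 w w2
        have := mt (hp u hu w w2) fun e => w3 (e ▸ h)
        have := mt (hp m hm w w2) fun e => w3 (e ▸ a)
        have := mt (hp m hm r hr) fun e => b (e ▸ a)
        unfold Par lt at *; omega
      · obtain ⟨w, hw, w1⟩ := (S.filter (· ∈ M)).exists_max_image p ⟨m, by simp [*]⟩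
        obtain ⟨w2, w3⟩ := Finset.mem_filter.1 hw
        refine ⟨p w + 1, fun m hm r hr a b => (ev _ m hm r hr).2 ?_⟩
        have := k m hm w w2 r hr u hu a w3 b h
        have := w1 m (by simp [*])
        have := u1 m hm
        have := mt (hp w w2 r hr) fun e => b (e ▸ w3)
        have := mt (hp m hm r hr) fun e => b (e ▸ a)
        unfold Par lt at *; omega)
    (fun t X hX a ha a' ha' d hd d' hd' a1 a2 d1 d2 => par_tri.2 (by
      have := hc.1 X (m1 X hX) a ha a' ha' d hd d' hd' a1 a2 d1 d2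
      simpa only [Par, lt_ins, nv, ha, ha', hd, hd', ne_eq, not_false_eq_true] using this))
    (fun t A B hd hA hB hAB a ha b hb r hr a1 b1 r1 => by
      rw [tri_tri hv hx ha hb hr, tri_tri hv (hy t) ha hb hr, hc.2 A B hd (m1 _ hA) (m1 _ hB) (m1 _ hAB) a ha b hb r hr
        a1 b1 r1]
      simp only [Tri, lt_ins, nv, ha, hb, hr, ne_eq, not_false_eq_true])
  have g1 : ∀ X, v ∉ X → Sp (insert v S) x X → Sp (insert v S) (lt (ins p v t)) X := fun X n k =>
    (sp_iff hv (hy t) n).2 (f1 X ((sp_iff hv hx n).1 k))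
  have g2 : ∀ A B, v ∉ A ∪ B → Disjoint A B → Sp (insert v S) x A → Sp (insert v S) x B →
      Sp (insert v S) x (A ∪ B) → ∀ a ∈ insert v S, ∀ b ∈ insert v S, ∀ r ∈ insert v S,
      a ∈ A → b ∈ B → r ∉ A ∪ B → (Tri x a b r ↔ Tri (lt (ins p v t)) a b r) :=
    fun A B n hd hA hB hAB a ha b hb r hr a1 b1 r1 => by
      have a2 := Finset.mem_of_mem_insert_of_ne ha fun e => n (.inl (e ▸ a1))
      have b2 := Finset.mem_of_mem_insert_of_ne hb fun e => n (.inr (e ▸ b1))
      have := f2 A B hd ((sp_iff hv hx fun e => n (.inl e)).1 hA) ((sp_iff hv hx fun e => n (.inr e)).1 hB)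
        ((sp_iff hv hx n).1 hAB) a a2 b b2 a1 b1
      have := hAB a ha b hb r hr v (by simp) (.inl a1) (.inr b1) r1 n
      have := g1 _ n hAB a ha b hb r hr v (by simp) (.inl a1) (.inr b1) r1 n
      have := av hv hx a2
      have := av hv (hy t) a2
      have := hx r hr a ha fun e => r1 (e ▸ .inl a1)
      have := hy t r hr a ha fun e => r1 (e ▸ .inl a1)
      clear f1 f2 g1 ev m1 hy hc hp hA hB hAB hx
      unfold Par Tri at *; grind
  refine ⟨t, fun X k => ?_, fun A B hd hA hB hAB a ha b hb r hr a1 b1 r1 => ?_⟩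
  · by_cases h : v ∈ X
    · exact compl_compl X ▸ sp_compl (hy t) (g1 _ (fun e => e h) (sp_compl hx k))
    · exact g1 X h k
  have nb := Set.disjoint_left.1 hd
  by_cases h : v ∈ A
  · have e : B ∪ (A ∪ B)ᶜ = Aᶜ := by ext u; have := @nb u; simp only [Set.mem_union, Set.mem_compl_iff]; tauto
    have := g2 B (A ∪ B)ᶜ (e ▸ fun k => k h) (Set.disjoint_left.2 fun u h k => k (.inr h)) hB (sp_compl hx hAB)
      (e ▸ sp_compl hx hA) b hb r hr a ha b1 r1 (e ▸ fun k => k a1)
    rwa [tri_rot, tri_rot (r := lt _)]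
  by_cases h' : v ∈ B
  · have e : (A ∪ B)ᶜ ∪ A = Bᶜ := by ext u; have := @nb u; simp only [Set.mem_union, Set.mem_compl_iff]; tauto
    have := g2 (A ∪ B)ᶜ A (e ▸ fun k => k h') (Set.disjoint_left.2 fun u h k => h (.inl k)) (sp_compl hx hAB) hA
      (e ▸ sp_compl hx hB) r hr a ha b hb r1 a1 (e ▸ fun k => k b1)
    rwa [tri_rot, tri_rot (r := lt _)] at this
  exact g2 A B (fun k => k.elim h h') hd hA hB hAB a ha b hb r hr a1 b1 r1

end Pool.Agent.H.MP_1d1d91_lc
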