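import Pool.Agent.H.MP_1d1d91_lc.B

set_option autoImplicit false

namespace Pool.Agent.H.MP_1d1d91_lc

variable {V : Type} [DecidableEq V] (G : SimpleGraph V)

def Dia (U : Finset V) (r : V → V → Prop) : Prop := ∀ a ∈ U, ∀ c ∈ U, ∀ b ∈ U, ∀ d ∈ U,
  G.Adj a c → G.Adj a b → G.Adj c b → G.Adj a d → G.Adj c d → ¬G.Adj b d → Par r a c b d
def Cl (K : Finset V) : Prop := ∀ a ∈ K, ∀ b ∈ K, a ≠ b → G.Adj a b
def Mx (U K : Finset V) : Prop := K ⊆ U ∧ Cl G K ∧ ∀ u ∈ U, (∀ k ∈ K, k ≠ u → G.Adj u k) → u ∈ K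

lemma exmax {U L : Finset V} (h1 : L ⊆ U) (h2 : Cl G L) : ∃ K, L ⊆ K ∧ Mx G U K := by
  classical
  obtain ⟨K, a, b⟩ := (U.powerset.filter fun K => L ⊆ K ∧ Cl G K).exists_max_image Finset.card ⟨L, by simp [*]⟩
  simp only [Finset.mem_filter, Finset.mem_powerset] at a b
  refine ⟨K, a.2.1, a.1, a.2.2, fun u hu k => by_contra fun n => ?_⟩
  have := b (insert u K) ⟨Finset.insert_subset hu a.1, a.2.1.trans (Finset.subset_insert _ _), fun c hc d hd e => by
    rcases Finset.mem_insert.1 hc with rfl | hc' <;> rcases Finset.mem_insert.1 hd with rfl | hd'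
    exacts [absurd rfl e, k d hd' e.symm, (k c hc' e).symm, a.2.2 c hc' d hd' e]⟩
  rw [Finset.card_insert_of_notMem n] at this; omega

omit [DecidableEq V] in
lemma Compat.congr {K : Finset V} {x y y' : V → V → Prop} (h : Compat K x y)
    (e : ∀ a ∈ K, ∀ b ∈ K, y' a b ↔ y a b) : Compat K x y' :=
  ⟨fun X k a ha a' ha' d hd d' hd' a1 a2 d1 d2 => by
    simpa only [Par, e, ha, ha', hd, hd'] using h.1 X k a ha a' ha' d hd d' hd' a1 a2 d1 d2,
  fun A B hd hA hB hAB a ha b hb r hr a1 b1 r1 => by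
    simpa only [Tri, e, ha, hb, hr] using h.2 A B hd hA hB hAB a ha b hb r hr a1 b1 r1⟩

lemma clone {S K : Finset V} {v d0 : V} {x y y' : V → V → Prop} (hv : v ∉ S) (hS : S ⊆ K) (h0 : d0 ∈ K) (n0 : d0 ∉ S)
    (a1 : Anti K x) (a2 : Anti (insert v S) x) (h : ∀ a ∈ K, a ∉ S → ∀ d ∈ S, ∀ d' ∈ S, Par x d d' v a)
    (hc : Compat K x y) (e : ∀ a ∈ insert v S, ∀ b ∈ insert v S,
      y' a b ↔ y (if a = v then d0 else a) (if b = v then d0 else b)) : Compat (insert v S) x y' := by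
  let φ : V → V := fun u => if u ∈ S then u else v
  let ψ : V → V := fun u => if u = v then d0 else u
  have p1 : ∀ u ∈ insert v S, ψ u ∈ K ∧ φ (ψ u) = u := fun u hu => by
    rcases Finset.mem_insert.1 hu with rfl | hu
    · simp [φ, ψ, h0, n0]
    · have : u ≠ v := fun e => hv (e ▸ hu)
      simp [φ, ψ, this, hu, hS hu]
  have p2 : ∀ u, φ u ∈ insert v S := fun u => by simp only [φ]; split_ifs <;> simp [*]
  have q : ∀ a ∈ K, ∀ d ∈ S, ∀ d' ∈ S, ((x d a ↔ x d' a) ↔ (x d (φ a) ↔ x d' (φ a))) ∧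
      ((x a d ↔ x a d') ↔ (x (φ a) d ↔ x (φ a) d')) := fun a ha d hd d' hd' => by
    simp only [φ]
    split_ifs with k
    · exact ⟨Iff.rfl, Iff.rfl⟩
    have := h a ha k d hd d' hd'
    have := a1 a ha d (hS hd) fun e => k (e ▸ hd)
    have := a1 a ha d' (hS hd') fun e => k (e ▸ hd')
    have := av hv a2 hd
    have := av hv a2 hd'
    clear h hc e p1 p2 a1 a2
    unfold Par at *; grind
  have s : ∀ X, Sp (insert v S) x X → Sp K x (φ ⁻¹' X) := fun X k a ha a' ha' d hd d' hd' b1 b2 d1 d2 => by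
    have k := k _ (p2 a) _ (p2 a') _ (p2 d) _ (p2 d') b1 b2 d1 d2
    have f : ∀ u, φ u ≠ v → u ∈ S ∧ φ u = u := fun u n => by simp only [φ] at n ⊢; split_ifs at n ⊢ <;> simp_all
    by_cases hX : v ∈ X
    · obtain ⟨c1, c2⟩ := f d fun e => d1 (show φ d ∈ X from e ▸ hX)
      obtain ⟨c3, c4⟩ := f d' fun e => d2 (show φ d' ∈ X from e ▸ hX)
      have k1 := (q a ha d c1 d' c3).2
      have k2 := (q a' ha' d c1 d' c3).2
      rw [c2, c4] at k
      clear h hc e p1 p2 a1 a2 q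
      unfold Par at *; grind
    · obtain ⟨c1, c2⟩ := f a fun e => hX (e ▸ b1)
      obtain ⟨c3, c4⟩ := f a' fun e => hX (e ▸ b2)
      have k1 := (q d hd a c1 a' c3).1
      have k2 := (q d' hd' a c1 a' c3).1
      rw [c2, c4] at k
      clear h hc e p1 p2 a1 a2 q
      unfold Par at *; grind
  refine ⟨fun X k a ha a' ha' d hd d' hd' b1 b2 d1 d2 => ?_, fun A B hd hA hB hAB a ha b hb r hr b1 b2 r1 => ?_⟩
  · have := hc.1 _ (s X k) _ (p1 a ha).1 _ (p1 a' ha').1 _ (p1 d hd).1 _ (p1 d' hd').1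
      (by rwa [Set.mem_preimage, (p1 a ha).2]) (by rwa [Set.mem_preimage, (p1 a' ha').2])
      (by rwa [Set.mem_preimage, (p1 d hd).2]) (by rwa [Set.mem_preimage, (p1 d' hd').2])
    simpa only [Par, e, ha, ha', hd, hd'] using this
  · have := hc.2 _ _ (hd.preimage φ) (s A hA) (s B hB) (s _ hAB) _ (p1 a ha).1 _ (p1 b hb).1 _ (p1 r hr).1
      (by rwa [Set.mem_preimage, (p1 a ha).2]) (by rwa [Set.mem_preimage, (p1 b hb).2])
      (by rwa [← Set.preimage_union, Set.mem_preimage, (p1 r hr).2])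
    have t : ∀ a ∈ S, ∀ b ∈ S, Tri x v a b ↔ Tri x d0 a b := fun a ha b hb => by
      have := h d0 h0 n0 a ha b hb
      have := a1 d0 h0 a (hS ha) fun e => n0 (e ▸ ha)
      have := av hv a2 ha
      clear h hc e p1 p2 a1 a2 q s
      unfold Par Tri at *; grind
    refine Iff.trans ?_ (this.trans (by simp only [Tri, e, ha, hb, hr, ψ]))
    have n1 : a ≠ b := fun e => Set.disjoint_left.1 hd b1 (e ▸ b2)
    have n2 : a ≠ r := fun e => r1 (.inl (e ▸ b1))
    have n3 : b ≠ r := fun e => r1 (.inr (e ▸ b2))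
    have m := fun u (hu : u ∈ insert v S) => Finset.mem_of_mem_insert_of_ne hu
    simp only [ψ]
    by_cases k1 : a = v
    · subst k1
      rw [if_pos rfl, if_neg n1.symm, if_neg n2.symm]; exact t b (m b hb n1.symm) r (m r hr n2.symm)
    by_cases k2 : b = v
    · subst k2
      rw [if_pos rfl, if_neg n1, if_neg n3.symm, tri_rot, tri_rot (b := d0)]; exact t r (m r hr n3.symm) a (m a ha n1)
    by_cases k3 : r = v
    · subst k3
      rw [if_pos rfl, if_neg n2, if_neg n3, ← tri_rot, ← tri_rot (a := d0)]; exact t a (m a ha n2) b (m b hb n3)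
    rw [if_neg k1, if_neg k2, if_neg k3]

theorem main (hG : ∀ n, 4 ≤ n → IsEmpty (SimpleGraph.cycleGraph n ↪g G)) {x : V → V → Prop}
    (h1 : ∀ a b, G.Adj a b → (x a b ↔ ¬x b a)) (U : Finset V) (h2 : Dia G U x) :
    ∃ p : V → ℕ, (∀ a ∈ U, ∀ b ∈ U, p a = p b → a = b) ∧ (∀ K, Mx G U K → Compat K x (lt p)) ∧ Dia G U (lt p) := by
  classical
  induction U using Finset.strongInduction with
  | H U ih =>
  rcases U.eq_empty_or_nonempty with rfl | hU
  · exact ⟨0, by simp, fun K h => by simp [Finset.subset_empty.1 h.1, Compat, Sp], by simp [Dia]⟩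
  obtain ⟨v, hv, sv⟩ := Pool.Agent.Lib.helper9.Chordal.simplicial G hG U hU
  have sub := U.erase_subset v
  obtain ⟨p, p1, p2, p3⟩ := ih (U.erase v) (Finset.erase_ssubset hv) fun a ha c hc b hb d hd =>
    h2 a (sub ha) c (sub hc) b (sub hb) d (sub hd)
  have an : ∀ K, Cl G K → Anti K x := fun K h a ha b hb n => h1 a b (h a ha b hb n)
  let S := U.filter (G.Adj v)
  have mS : ∀ a, a ∈ S ↔ a ∈ U ∧ G.Adj v a := fun a => Finset.mem_filter
  have nv : v ∉ S := by simp [mS]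
  have s1 : S ⊆ U.erase v := fun a ha => Finset.mem_erase.2 ⟨((mS a).1 ha).2.ne', ((mS a).1 ha).1⟩
  have s2 : Cl G S := fun a ha b hb => sv a ((mS a).1 ha).1 b ((mS b).1 hb).1 ((mS a).1 ha).2 ((mS b).1 hb).2
  have s3 : Cl G (insert v S) := fun c hc d hd e => by
    rcases Finset.mem_insert.1 hc with rfl | hc <;> rcases Finset.mem_insert.1 hd with rfl | hd
    exacts [absurd rfl e, ((mS d).1 hd).2, ((mS c).1 hc).2.symm, s2 c hc d hd e]
  have dia : ∀ {W : Finset V} {r}, Dia G W r → ∀ a ∈ W, ∀ c ∈ W, ∀ b ∈ W, ∀ d ∈ W, (a ≠ c → G.Adj a c) → G.Adj a b →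
      G.Adj c b → G.Adj a d → G.Adj c d → ¬G.Adj b d → Par r a c b d := fun h a ha c hc b hb d hd e => by
    by_cases k : a = c
    · subst k; intros; simp [Par]
    · exact h a ha c hc b hb d hd (e k)
  have dv : ∀ a ∈ S, ∀ c ∈ S, ∀ d ∈ U, d ∉ S → G.Adj a d → G.Adj c d → Par x a c v d := fun a ha c hc d hd n e1 e2 =>
    dia h2 a ((mS a).1 ha).1 c ((mS c).1 hc).1 v hv d hd (s2 a ha c hc) ((mS a).1 ha).2.symm ((mS c).1 hc).2.symm
      e1 e2 fun e => n ((mS d).2 ⟨hd, e⟩)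
  have li : ∀ t, ∀ a ∈ U.erase v, ∀ b ∈ U.erase v, lt (ins p v t) a b ↔ lt p a b := fun t a ha b hb =>
    lt_ins (Finset.ne_of_mem_erase ha) (Finset.ne_of_mem_erase hb)
  obtain ⟨t, t1, t2⟩ : ∃ t, Compat (insert v S) x (lt (ins p v t)) ∧ ∀ a ∈ S, ∀ c ∈ S, ∀ d ∈ U.erase v, d ∉ S →
      G.Adj a d → G.Adj c d → Par (lt (ins p v t)) a c v d := by
    obtain ⟨K, k1, k2⟩ := exmax G s1 s2
    by_cases h : K ⊆ S
    · obtain rfl := k1.antisymm h
      obtain ⟨t, ht⟩ := ext2 nv (an _ s3) (fun a ha b hb => p1 a (s1 ha) b (s1 hb)) (p2 _ k2)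
      refine ⟨t, ht, fun a ha c hc d hd n e1 e2 => ?_⟩
      obtain ⟨e, he, n2⟩ : ∃ e ∈ S, ¬G.Adj d e := by_contra fun k => n (k2.2.2 d hd fun e he _ =>
        by_contra fun k' => k ⟨e, he, k'⟩)
      have nd : ¬G.Adj d v := fun k => n ((mS d).2 ⟨sub hd, k.symm⟩)
      have iU : ∀ u ∈ insert v S, u ∈ U := Finset.insert_subset hv (s1.trans sub)
      have k := ht.1 {u | G.Adj d u} (fun a ha c hc e he e' he' a1 c1 n1 n2 => by
        have := fun e he (n1 : ¬G.Adj d e) => dia h2 a (iU a ha) c (iU c hc) e (iU e he) d (sub hd) (s3 a ha c hc)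
          (s3 a ha e he fun k => n1 (k ▸ a1)) (s3 c hc e he fun k => n1 (k ▸ c1)) a1.symm c1.symm fun k => n1 k.symm
        exact (this e he n1).trans (this e' he' n2).symm) a (by simp [ha]) c (by simp [hc]) v (by simp) e
        (by simp [he]) e1.symm e2.symm nd n2
      have := dia p3 a (s1 ha) c (s1 hc) e (s1 he) d hd (s2 a ha c hc) (s2 a ha e he fun k => n2 (k ▸ e1.symm))
        (s2 c hc e he fun k => n2 (k ▸ e2.symm)) e1 e2 fun k => n2 k.symm
      refine k.trans ?_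
      simpa only [Par, li t, s1 ha, s1 hc, s1 he, hd] using this
    · obtain ⟨d0, h0, n0⟩ := Finset.not_subset.1 h
      have l1 : ∀ a ∈ S, (lt (ins p v (p d0)) a v ↔ lt p a d0) ∧ (lt (ins p v (p d0)) v a ↔ lt p d0 a) := fun a ha => by
        have := mt (p1 a (s1 ha) d0 (k2.1 h0)) fun e => n0 (e ▸ ha)
        simp only [lt, ins, if_pos, if_neg (Finset.ne_of_mem_erase (s1 ha))]; omega
      have ad : ∀ a ∈ S, G.Adj a d0 := fun a ha => k2.2.1 a (k1 ha) d0 h0 fun e => n0 (e ▸ ha)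
      refine ⟨p d0, clone nv k1 h0 n0 (an _ k2.2.1) (an _ s3) (fun a ha n d hd d' hd' => dv d hd d' hd' a (sub (k2.1 ha)) n
        (k2.2.1 d (k1 hd) a ha fun e => n (e ▸ hd)) (k2.2.1 d' (k1 hd') a ha fun e => n (e ▸ hd'))) (p2 K k2)
        fun a ha b hb => ?_, fun a ha c hc d hd n e1 e2 => ?_⟩
      · have m := fun u (hu : u ∈ insert v S) => Finset.mem_of_mem_insert_of_ne hu
        split_ifs with k1 k2 k2
        · simp [k1, k2, lt]
        · rw [k1]; exact (l1 b (m b hb k2)).2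
        · rw [k2]; exact (l1 a (m a ha k1)).1
        · exact lt_ins k1 k2
      · suffices k : Par (lt p) a c d0 d by
          simpa only [Par, li _ a (s1 ha) d hd, li _ c (s1 hc) d hd, l1 a ha, l1 c hc] using k
        by_cases h : G.Adj d0 d
        swap
        · exact dia p3 a (s1 ha) c (s1 hc) d0 (k2.1 h0) d hd (s2 a ha c hc) (ad a ha) (ad c hc) e1 e2 h
        obtain ⟨L, m1, m2⟩ := exmax G (L := {a, c, d0, d}) (U := U.erase v)
          (by simp only [Finset.insert_subset_iff, Finset.singleton_subset_iff]; exact ⟨s1 ha, s1 hc, k2.1 h0, hd⟩)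
          (by
            have := s2 a ha c hc
            have := s2 c hc a ha
            have := ad a ha
            have := ad c hc
            have := @SimpleGraph.Adj.symm _ G
            simp only [Cl, Finset.mem_insert, Finset.mem_singleton]
            rintro _ (rfl | rfl | rfl | rfl) _ (rfl | rfl | rfl | rfl) <;> tauto)
        exact (p2 L m2).1 S (fun a ha c hc e he e' he' a1 c1 n1 n2 => by
          have := fun e he (n1 : e ∉ S) => dv a a1 c c1 e (sub (m2.1 he)) n1 (m2.2.1 a ha e he fun k => n1 (k ▸ a1))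
            (m2.2.1 c hc e he fun k => n1 (k ▸ c1))
          exact (this e he n1).symm.trans (this e' he' n2)) a (m1 (by simp)) c (m1 (by simp)) d0 (m1 (by simp)) d
          (m1 (by simp)) ha hc n0 n
  have me : ∀ a ∈ U, a ≠ v → a ∈ U.erase v := fun a ha n => Finset.mem_erase.2 ⟨n, ha⟩
  refine ⟨ins p v t, by simpa only [Finset.insert_erase hv] using ins_inj p1 v t, fun K k => ?_,
    fun a ha c hc b hb d hd e1 e2 e3 e4 e5 n => ?_⟩
  · by_cases h : v ∈ K
    · have k1 : K ⊆ insert v S := fun a ha => by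
        by_cases e : a = v
        · simp [e]
        · exact Finset.mem_insert_of_mem ((mS a).2 ⟨k.1 ha, k.2.1 v h a ha (Ne.symm e)⟩)
      rwa [k1.antisymm (Finset.insert_subset h fun a ha => k.2.2 a ((mS a).1 ha).1 fun b hb n =>
        s3 a (by simp [ha]) b (k1 hb) n.symm)]
    · have k1 : K ⊆ U.erase v := fun a ha => me a (k.1 ha) fun e => h (e ▸ ha)
      exact (p2 K ⟨k1, k.2.1, fun u hu => k.2.2 u (sub hu)⟩).congr fun a ha b hb => li t a (k1 ha) b (k1 hb)
  by_cases bd : b = d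
  · subst bd; exact Iff.rfl
  have a1 : a ≠ v := fun e => n (sv b hb d hd (e ▸ e2) (e ▸ e4) bd)
  have c1 : c ≠ v := fun e => n (sv b hb d hd (e ▸ e3) (e ▸ e5) bd)
  by_cases b1 : b = v
  · subst b1
    exact t2 a ((mS a).2 ⟨ha, e2.symm⟩) c ((mS c).2 ⟨hc, e3.symm⟩) d (me d hd (Ne.symm bd))
      (fun k => n ((mS d).1 k).2) e4 e5
  by_cases d1 : d = v
  · subst d1
    exact (t2 a ((mS a).2 ⟨ha, e4.symm⟩) c ((mS c).2 ⟨hc, e5.symm⟩) b (me b hb bd)
      (fun k => n ((mS b).1 k).2.symm) e2 e3).symm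
  simpa only [Par, lt_ins, a1, c1, b1, d1, ne_eq, not_false_eq_true] using
    p3 a (me a ha a1) c (me c hc c1) b (me b hb b1) d (me d hd d1) e1 e2 e3 e4 e5 n

end Pool.Agent.H.MP_1d1d91_lc
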