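import Pool.Agent.H.MP_1d1d91_lc.C
import Pool.Agent.H.MP_474c54_lc.C

set_option autoImplicit false

namespace Pool.Agent.H.MP_1d1d91_lc
open Pool.Agent.Lib.CX Pool.Agent.H.MP_474c54_lc

/-- `G` has an acyclic orientation `o` without shortcuts -/
def SemiTrans {V : Type} (G : SimpleGraph V) : Prop := ∃ o : V → V → Prop,
  (∀ u v, G.Adj u v ↔ o u v ∨ o v u) ∧ (∀ u, ¬Relation.TransGen o u u) ∧
  ∀ k, 3 ≤ k → ∀ f : ℕ → V, (∀ i < k, o (f i) (f (i + 1))) → o (f 0) (f k) → ∀ i j, i < j → j ≤ k → o (f i) (f j)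

section
variable {V : Type} [DecidableEq V] [Fintype V] {G : SimpleGraph V}
  (hG : ∀ n, 4 ≤ n → IsEmpty (SimpleGraph.cycleGraph n ↪g G))
include hG

lemma clq {p : V → ℕ} (h : Dia G Finset.univ (lt p)) (k : ℕ) : ∀ f : ℕ → V, (∀ i j, i < j → j ≤ k → p (f i) < p (f j)) →
    (∀ i < k, G.Adj (f i) (f (i + 1))) → G.Adj (f 0) (f k) → ∀ i j, i < j → j ≤ k → G.Adj (f i) (f j) := by
  induction k with
  | zero => omega
  | succ k ih =>
    intro f h1 h2 h3
    by_cases hk : k < 2
    · intro i j a b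
      by_cases e : j = i + 1
      · exact e ▸ h2 i (by omega)
      · rwa [show i = 0 by omega, show j = k + 1 by omega]
    obtain ⟨_, hx, sv⟩ := Pool.Agent.Lib.helper9.Chordal.simplicial G hG ((Finset.range (k + 2)).image f) (by simp)
    obtain ⟨m, hm, rfl⟩ := Finset.mem_image.1 hx
    rw [Finset.mem_range] at hm
    obtain ⟨a, c, a1, a2, a3, a4⟩ : ∃ a c, a < c ∧ c ≤ k + 1 ∧ (G.Adj (f m) (f a) ∧ G.Adj (f m) (f c)) ∧
        (m = 0 ∧ a = 1 ∧ c = k + 1 ∨ m = k + 1 ∧ a = 0 ∧ c = k ∨ a + 1 = m ∧ c = m + 1) := by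
      by_cases e : m = 0
      · exact ⟨1, k + 1, by omega, le_rfl, e ▸ ⟨h2 0 (by omega), h3⟩, by omega⟩
      by_cases e' : m = k + 1
      · exact ⟨0, k, by omega, by omega, e' ▸ ⟨h3.symm, (h2 k (by omega)).symm⟩, by omega⟩
      obtain ⟨a, rfl⟩ := Nat.exists_eq_succ_of_ne_zero e
      exact ⟨a, a + 2, by omega, by omega, ⟨(h2 a (by omega)).symm, h2 _ (by omega)⟩, by omega⟩
    have ac := sv _ (Finset.mem_image_of_mem f (Finset.mem_range.2 (by omega : a < k + 2))) _
      (Finset.mem_image_of_mem f (Finset.mem_range.2 (by omega : c < k + 2))) a3.1 a3.2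
      fun e => (h1 a c a1 a2).ne (congrArg p e)
    have b := ih (fun t => f (if t < m then t else t + 1)) (fun i j a b => h1 _ _ (by split_ifs <;> omega)
      (by split_ifs <;> omega)) (fun i hi => by
        split_ifs with e1 e2 e2
        · exact h2 i (by omega)
        · rwa [show i = a by omega, show a + 1 + 1 = c by omega]
        · omega
        · exact h2 _ (by omega)) (by
        split_ifs with e1 e2 e2
        · rwa [show 0 = a by omega, show k = c by omega]
        · exact h3
        · omega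
        · rwa [show 0 + 1 = a by omega, show k + 1 = c by omega])
    have b' : ∀ i j, i ≠ j → i ≤ k + 1 → j ≤ k + 1 → i ≠ m → j ≠ m → G.Adj (f i) (f j) := by
      have : ∀ i j, i < j → j ≤ k + 1 → i ≠ m → j ≠ m → G.Adj (f i) (f j) := fun i j e1 e2 e3 e4 => by
        convert b (if i < m then i else i - 1) (if j < m then j else j - 1) (by split_ifs <;> omega)
          (by split_ifs <;> omega) using 2 <;> split_ifs <;> omega
      exact fun i j e1 e2 e3 e4 e5 => (lt_or_gt_of_ne e1).elim (fun e => this i j e e3 e4 e5)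
        fun e => (this j i e e2 e5 e4).symm
    have d : ∀ s ≤ k + 1, s ≠ m → G.Adj (f m) (f s) := fun s hs n => by
      by_cases e1 : s = a
      · exact e1 ▸ a3.1
      by_cases e2 : s = c
      · exact e2 ▸ a3.2
      by_contra n'
      have := h _ (Finset.mem_univ _) _ (Finset.mem_univ _) _ (Finset.mem_univ _) _ (Finset.mem_univ _) ac a3.1.symm
        a3.2.symm (b' a s (Ne.symm e1) (by omega) hs (by omega) n) (b' c s (Ne.symm e2) a2 hs (by omega) n) n'
      have l : ∀ i j, i ≤ k + 1 → j ≤ k + 1 → (lt p (f i) (f j) ↔ i < j) := fun i j e1 e2 =>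
        ⟨fun e => by_contra fun n => (Nat.le_of_not_lt n).eq_or_lt.elim (fun k => by simp [k, lt] at e)
          fun k => (h1 j i k e1).not_gt e, fun e => h1 i j e e2⟩
      rw [Par, l a m (by omega) (by omega), l c m a2 (by omega), l a s (by omega) hs, l c s a2 hs] at this
      omega
    intro i j e1 e2
    by_cases e3 : i = m
    · exact e3 ▸ d j e2 (by omega)
    by_cases e4 : j = m
    · exact e4 ▸ (d i (by omega) e3).symm
    exact b' i j e1.ne (by omega) e2 e3 e4

theorem st_iff : SemiTrans G ↔ ∃ x : V → V → Prop, (∀ a b, G.Adj a b → (x a b ↔ ¬x b a)) ∧ Dia G Finset.univ x := by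
  constructor
  · rintro ⟨o, h1, h2, h3⟩
    have an : ∀ a b, G.Adj a b → (o a b ↔ ¬o b a) := fun a b e =>
      ⟨fun k k' => h2 a (.tail (.single k) k'), fun k => ((h1 a b).1 e).resolve_right k⟩
    refine ⟨o, an, fun a _ c _ b _ d _ e1 e2 e3 e4 e5 n => ?_⟩
    have t : ∀ a b c, o a b → o b c → ¬o c a := fun a b c k1 k2 k3 => h2 a (.tail (.tail (.single k1) k2) k3)
    have s : ∀ p q r s, o p q → o q r → o r s → o p s → G.Adj p r ∧ G.Adj q s := fun p q r s k1 k2 k3 k4 => by
      have := h3 3 le_rfl (fun i => [p, q, r].getD i s) (fun i hi => by interval_cases i <;> assumption) k4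
      exact ⟨(h1 _ _).2 (.inl (this 0 2 (by omega) (by omega))), (h1 _ _).2 (.inl (this 1 3 (by omega) le_rfl))⟩
    have n' : ¬G.Adj d b := fun k => n k.symm
    have := an _ _ e1
    have := an _ _ e2
    have := an _ _ e3
    have := an _ _ e4
    have := an _ _ e5
    have := t a b c
    have := t c b a
    have := t a d c
    have := t c d a
    have := s a b c d
    have := s b c d a
    have := s c d a b
    have := s d a b c
    have := s a d c b
    have := s d c b a
    have := s c b a d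
    have := s b a d c
    clear s t an h1 h2 h3 hG
    unfold Par; grind
  · rintro ⟨x, h1, h2⟩
    obtain ⟨p, p1, -, p2⟩ := main G hG h1 _ h2
    refine ⟨fun u v => G.Adj u v ∧ p u < p v, fun u v => ⟨fun e => ?_, fun e => e.elim And.left fun e => e.1.symm⟩,
      fun u e => ?_, fun k _ f a b i j c d => ?_⟩
    · exact (lt_or_gt_of_ne (mt (p1 u (by simp) v (by simp)) e.ne)).imp (⟨e, ·⟩) (⟨e.symm, ·⟩)
    · have : ∀ u v, Relation.TransGen (fun u v => G.Adj u v ∧ p u < p v) u v → p u < p v := fun u v e => by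
        induction e with
        | single e => exact e.2
        | tail _ e ih => exact ih.trans e.2
      exact (this u u e).false
    · have m : ∀ i j, i < j → j ≤ k → p (f i) < p (f j) := fun i j c d => by
        induction j, c using Nat.le_induction with
        | base => exact (a i d).2
        | succ j _ ih => exact (ih (by omega)).trans (a j d).2
      exact ⟨clq hG p2 k f m (fun i hi => (a i hi).1) b.1 i j c d, m i j c d⟩

end

def col (Q : List (List (ℕ × ℕ) × Bool)) (i : ℕ × ℕ) : List ℕ :=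
  (List.range Q.length).filter fun j => (Q.getD j ([], false)).1.count i % 2 = 1
def lin (Q : List (List (ℕ × ℕ) × Bool)) : Bool := inS (Q.map fun _ => ()).length ((Q.flatMap (·.1)).map (col Q))
  ((List.range Q.length).filter fun j => (Q.getD j ([], false)).2)

lemma lin_iff (Q : List (List (ℕ × ℕ) × Bool)) :
    lin Q = true ↔ ∃ x : ℕ × ℕ → ZMod 2, ∀ e ∈ Q, (e.1.map x).sum = if e.2 then 1 else 0 := by
  rw [lin, List.length_map, inS_iff]
  have c : ∀ i (j : Fin Q.length), chi Q.length (col Q i) j = (Q[j].1.count i : ℕ) := fun i j => by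
    rw [← ZMod.natCast_mod _ 2]
    rcases Nat.mod_two_eq_zero_or_one (Q[j].1.count i) with h | h <;> rw [h] <;> simp at h <;> simp [chi, col, h]
  have t : ∀ j : Fin Q.length, chi Q.length ((List.range Q.length).filter fun j => (Q.getD j ([], false)).2) j =
      if Q[j].2 then 1 else 0 := fun j => by simp [chi]
  generalize chi Q.length ((List.range Q.length).filter fun j => (Q.getD j ([], false)).2) = y at t
  constructor
  · intro h
    suffices k : ∃ x : ℕ × ℕ → ZMod 2, ∀ j : Fin Q.length, y j = (Q[j].1.map x).sum by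
      obtain ⟨x, k⟩ := k
      refine ⟨x, fun e he => ?_⟩
      obtain ⟨j, hj, rfl⟩ := List.getElem_of_mem he
      exact (k ⟨j, hj⟩).symm.trans (t _)
    clear t
    induction h using AddSubgroup.closure_induction with
    | mem y h =>
      obtain ⟨_, h, rfl⟩ := h
      obtain ⟨i, -, rfl⟩ := List.mem_map.1 h
      refine ⟨fun u => if u = i then 1 else 0, fun j => (c i j).trans ?_⟩
      induction Q[j].1 with
      | nil => simp
      | cons a l ih => rw [List.count_cons, List.map_cons, List.sum_cons, ← ih, add_comm]; simp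
    | zero => exact ⟨fun _ => 0, by simp⟩
    | add _ _ _ _ a b =>
      obtain ⟨x, a⟩ := a
      obtain ⟨z, b⟩ := b
      exact ⟨fun u => x u + z u, fun j => by rw [List.sum_map_add, ← a, ← b]; rfl⟩
    | neg _ _ a =>
      obtain ⟨x, a⟩ := a
      exact ⟨x, fun j => (CharTwo.neg_eq _).trans (a j)⟩
  · rintro ⟨x, h⟩
    have : y = ∑ i ∈ (Q.flatMap (·.1)).toFinset, (x i).val • chi Q.length (col Q i) := funext fun j => by
      have m : Q[j] ∈ Q := List.getElem_mem _
      rw [t, ← h _ m, Finset.sum_list_map_count, Finset.sum_apply,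
        lawful_beq_subsingleton instBEqOfDecidableEq instBEqProd]
      refine (Finset.sum_subset (fun i hi => ?_) fun i _ hi => ?_).trans (Finset.sum_congr rfl fun i _ => ?_)
      · exact List.mem_toFinset.2 (List.mem_flatMap.2 ⟨_, m, List.mem_toFinset.1 hi⟩)
      · rw [List.count_eq_zero.2 (mt List.mem_toFinset.2 hi), zero_smul]
      · simp [c, mul_comm]
    rw [this]
    refine AddSubgroup.sum_mem _ fun i hi => AddSubgroup.nsmul_mem _ (AddSubgroup.subset_closure ?_) _
    exact ⟨_, List.mem_map_of_mem (List.mem_toFinset.1 hi), rfl⟩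

def eqs (g : Gr) : List (List (ℕ × ℕ) × Bool) :=
  ((List.range g.n ×ˢ List.range g.n).filter fun e => g.adjB e.1 e.2).map (fun e => ([e, (e.2, e.1)], true)) ++
  (((List.range g.n ×ˢ List.range g.n) ×ˢ List.range g.n ×ˢ List.range g.n).filter fun e => g.adjB e.1.1 e.1.2 &&
    g.adjB e.1.1 e.2.1 && g.adjB e.1.2 e.2.1 && g.adjB e.1.1 e.2.2 && g.adjB e.1.2 e.2.2 && !g.adjB e.2.1 e.2.2).map
    fun e => ([(e.1.1, e.2.1), (e.1.2, e.2.1), (e.1.1, e.2.2), (e.1.2, e.2.2)], false)

set_option synthInstance.maxSize 2000 in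
theorem pt_alg : PT fun g => lin (eqs g) := by
  have h : PT lin := by unfold lin col; exact pt_inS (by fun_prop) (by fun_prop) (by fun_prop)
  exact h.comp (by unfold eqs; fun_prop)

theorem alg_iff (g : Gr) : lin (eqs g) = true ↔
    ∃ x : Fin g.n → Fin g.n → Prop, (∀ a b, g.G.Adj a b → (x a b ↔ ¬x b a)) ∧ Dia g.G Finset.univ x := by
  have z1 : ∀ a b : ZMod 2, a + b = 1 ↔ (a = 1 ↔ ¬b = 1) := by decide
  have z2 : ∀ a b c d : ZMod 2, a + (b + (c + d)) = 0 ↔ ((a = 1 ↔ b = 1) ↔ (c = 1 ↔ d = 1)) := by decide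
  simp only [lin_iff, eqs, List.forall_mem_append, List.forall_mem_map, List.mem_filter, Prod.forall,
    List.mem_product, List.mem_range, List.map_cons, List.map_nil, List.sum_cons, List.sum_nil, add_zero, reduceIte,
    Bool.false_eq_true, z1, z2, Bool.and_eq_true, Bool.not_eq_true', ← Bool.not_eq_true]
  constructor
  · rintro ⟨x, h1, h2⟩
    refine ⟨fun a b => x (a, b) = 1, fun a b e => h1 a b ⟨⟨a.2, b.2⟩, (g.adjB_iff _ _).2 e⟩,
      fun a _ c _ b _ d _ e1 e2 e3 e4 e5 n => h2 a c b d ⟨⟨⟨a.2, c.2⟩, b.2, d.2⟩, ?_⟩⟩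
    simp only [g.adjB_iff]; tauto
  · rintro ⟨x, h1, h2⟩
    classical
    refine ⟨fun e => if ∃ a b : Fin g.n, e = (a.1, b.1) ∧ x a b then 1 else 0, ?_⟩
    have e : ∀ a b : Fin g.n, (if ∃ u v : Fin g.n, (a.1, b.1) = (u.1, v.1) ∧ x u v then (1 : ZMod 2) else 0) = 1 ↔
        x a b := fun a b => by simp [Fin.val_inj]
    refine ⟨fun a b ⟨⟨ha, hb⟩, k⟩ => ?_, fun a c b d ⟨⟨⟨ha, hc⟩, hb, hd⟩, k⟩ => ?_⟩
    · lift a to Fin g.n using ha
      lift b to Fin g.n using hb
      rw [e, e]; exact h1 a b ((g.adjB_iff _ _).1 k)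
    · lift a to Fin g.n using ha
      lift b to Fin g.n using hb
      lift c to Fin g.n using hc
      lift d to Fin g.n using hd
      simp only [g.adjB_iff] at k
      rw [e, e, e, e]
      exact h2 a (by simp) c (by simp) b (by simp) d (by simp) k.1.1.1.1.1 k.1.1.1.1.2 k.1.1.1.2 k.1.1.2 k.1.2 k.2

end Pool.Agent.H.MP_1d1d91_lc
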